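import Pool.Agent.W480.X6.End

set_option autoImplicit false

open MvPolynomial Pool.Agent.W480.DD Pool.Agent.W480.X6

namespace Pool.Agent.Results.MP_55ef7c_ag.QuarticGrowth

/-- Negation of the growth statement with `0 ≤ ℓ ≤ N`, for `N = 3` and every field `K` of
characteristic zero: there is a birational map `f` of `ℙ^3` over `K` with dynamical degree `1`
whose degrees satisfy `c n^4 ≤ deg (f^n) ≤ C n^4` for all powers `n` of two, `n ≥ 2`. So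
`deg (f^n) ≍ n^ℓ δ^n` fails for every `ℓ ≠ 4`, in particular for all `ℓ ≤ 3`. -/
theorem result (K : Type) [Field K] [CharZero K] :
    ∃ f : RatMap K 3, IsBirational f ∧ f.IsDynamicalDegree 1 ∧
      (∃ (e : ℕ → ℕ) (c C : ℝ), IsDegSeq f e ∧ 0 < c ∧ 0 < C ∧ ∀ k : ℕ, 1 ≤ k →
        c * ((2 : ℝ) ^ k) ^ 4 ≤ e (2 ^ k) ∧ (e (2 ^ k) : ℝ) ≤ C * ((2 : ℝ) ^ k) ^ 4) ∧
      ∀ ℓ : ℕ, ℓ ≠ 4 → ¬ HasGrowth f ℓ :=
  final K

end Pool.Agent.Results.MP_55ef7c_ag.QuarticGrowth
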